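import Pool.Agent.R2.GL.Free

set_option autoImplicit false

/-!
# Permutation groups whose long orbits are divisible by a large prime

`Γ` is a group of permutations of a finite set, `p` a prime; every orbit has length divisible by `p`
or smaller than `p`, and the orbits of the first kind have fewer than `p ^ 2` elements altogether.
Then `Γ` contains an element of order `p` whose nontrivial powers have no fixed points in the orbits
of the first kind and which fixes all other points.
-/

namespace Pool.Agent.R2.GL

open MulAction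

theorem exists_free_on {p : ℕ} (hp : p.Prime) {V : Type*} [Fintype V]
    (Γ : Subgroup (Equiv.Perm V))
    (h1 : ∀ v : V, p ∣ Nat.card (orbit Γ v) ∨ Nat.card (orbit Γ v) < p)
    (h2 : {v : V | p ∣ Nat.card (orbit Γ v)}.ncard < p ^ 2)
    (hne : ∃ v : V, p ∣ Nat.card (orbit Γ v)) :
    ∃ c : Γ, orderOf c = p ∧
      (∀ a ∈ Subgroup.zpowers c, ∀ v : V, p ∣ Nat.card (orbit Γ v) → a • v = v → a = 1) ∧
      ∀ a ∈ Subgroup.zpowers c, ∀ v : V, ¬ p ∣ Nat.card (orbit Γ v) → a • v = v := by
  classical
  let M : SubMulAction Γ V :=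
    { carrier := {v | p ∣ Nat.card (orbit Γ v)}
      smul_mem' := by
        intro a v hv
        have h3 : orbit Γ (a • v) = orbit Γ v := orbit_eq_iff.mpr (mem_orbit _ _)
        change p ∣ Nat.card (orbit Γ (a • v))
        rw [h3]
        exact hv }
  obtain ⟨v₀, hv₀⟩ := hne
  have hMne : Nonempty M := ⟨⟨v₀, hv₀⟩⟩
  have horbM : ∀ v : M, p ∣ Nat.card (orbit Γ v) := by
    intro v
    have h3 := SubMulAction.val_image_orbit (p := M) v
    have h4 : Nat.card (orbit Γ v) = Nat.card (orbit Γ (v : V)) := by
      rw [← h3]
      exact (Nat.card_image_of_injective Subtype.val_injective _).symm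
    rw [h4]
    exact v.2
  have hMcard : Nat.card M < p ^ 2 := h2
  obtain ⟨g, ⟨b, hb⟩, hg⟩ := exists_derangement hp (G := Γ) (Ω := M) horbM hMcard
  -- on the long orbits
  have hpow : ∀ v : M, g ^ p • v = v := by
    intro v
    have e1 : MulAction.period g v ∣ p ^ b := by
      rw [← hb]
      exact MulAction.period_dvd_orderOf g v
    obtain ⟨i, -, hi⟩ := (Nat.dvd_prime_pow hp).1 e1
    have e2 : i ≠ 0 := by
      rintro rfl
      apply hg v
      rw [pow_zero] at hi
      have := MulAction.pow_period_smul g v
      rwa [hi, pow_one] at this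
    have e3 : MulAction.period g v ≤ Nat.card M := by
      have : MulAction.period g v = Nat.card (MulAction.orbit (Subgroup.zpowers g) v) := by
        let _ : Fintype (MulAction.orbit (Subgroup.zpowers g) v) := Fintype.ofFinite _
        rw [MulAction.period_eq_minimalPeriod, MulAction.minimalPeriod_eq_card,
          Nat.card_eq_fintype_card]
      rw [this]
      exact Nat.card_le_card_of_injective _ Subtype.val_injective
    have e4 : i < 2 := by
      have : p ^ i < p ^ 2 := by rw [← hi]; omega
      exact (Nat.pow_lt_pow_iff_right hp.one_lt).1 this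
    have e5 : i = 1 := by omega
    rw [e5, pow_one] at hi
    rw [← hi]
    exact MulAction.pow_period_smul g v
  -- on the short orbits
  have hfix : ∀ v : V, ¬ p ∣ Nat.card (orbit Γ v) → g • v = v := by
    intro v hv
    have e1 : MulAction.period g v ∣ p ^ b := by
      rw [← hb]
      exact MulAction.period_dvd_orderOf g v
    obtain ⟨i, -, hi⟩ := (Nat.dvd_prime_pow hp).1 e1
    have e3 : MulAction.period g v ≤ Nat.card (orbit Γ v) := by
      have h5 : MulAction.period g v = Nat.card (MulAction.orbit (Subgroup.zpowers g) v) := by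
        let _ : Fintype (MulAction.orbit (Subgroup.zpowers g) v) := Fintype.ofFinite _
        rw [MulAction.period_eq_minimalPeriod, MulAction.minimalPeriod_eq_card,
          Nat.card_eq_fintype_card]
      rw [h5]
      refine Nat.card_mono (Set.toFinite _) ?_
      rintro _ ⟨a, rfl⟩
      exact ⟨a.1, rfl⟩
    have e4 : Nat.card (orbit Γ v) < p := (h1 v).resolve_left hv
    have e5 : i = 0 := by
      by_contra h6
      have h7 : p ^ 1 ≤ p ^ i := Nat.pow_le_pow_right hp.pos (by omega)
      rw [pow_one] at h7
      omega
    rw [e5, pow_zero] at hi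
    have := MulAction.pow_period_smul g v
    rwa [hi, pow_one] at this
  have hgp : g ^ p = 1 := by
    apply Subtype.ext
    ext v
    by_cases hv : p ∣ Nat.card (orbit Γ v)
    · exact congrArg Subtype.val (hpow ⟨v, hv⟩)
    · have hst : g ∈ MulAction.stabilizer Γ v := hfix v hv
      exact (MulAction.stabilizer Γ v).pow_mem hst p
  have hg1 : g ≠ 1 := by
    rintro rfl
    exact hg ⟨v₀, hv₀⟩ (one_smul _ _)
  have hF : Fact p.Prime := ⟨hp⟩
  have hord : orderOf g = p := orderOf_eq_prime hgp hg1
  refine ⟨g, hord, fun a ha v hv hav => ?_, fun a ha v hv => ?_⟩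
  · by_contra ha1
    have hgen : g ∈ Subgroup.zpowers a := by
      have h3 : orderOf a = p := by
        have h4 : orderOf a ∣ p := by
          rw [← hord, ← Nat.card_zpowers g]
          exact Subgroup.orderOf_dvd_natCard _ ha
        rcases (Nat.dvd_prime hp).1 h4 with h5 | h5
        · exact absurd (orderOf_eq_one_iff.1 h5) ha1
        · exact h5
      have h6 : Subgroup.zpowers a ≤ Subgroup.zpowers g := by
        rw [Subgroup.zpowers_le]; exact ha
      have h7 : Subgroup.zpowers a = Subgroup.zpowers g := by
        apply Subgroup.eq_of_le_of_card_ge h6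
        rw [Nat.card_zpowers, Nat.card_zpowers, h3, hord]
      rw [h7]
      exact Subgroup.mem_zpowers g
    obtain ⟨j, hj⟩ := Subgroup.mem_zpowers_iff.1 hgen
    apply hg ⟨v, hv⟩
    rw [← hj]
    have hst : a ∈ MulAction.stabilizer Γ (⟨v, hv⟩ : M) := Subtype.ext hav
    exact (MulAction.stabilizer Γ (⟨v, hv⟩ : M)).zpow_mem hst j
  · obtain ⟨j, hj⟩ := Subgroup.mem_zpowers_iff.1 ha
    have hst : g ∈ MulAction.stabilizer Γ v := hfix v hv
    rw [← hj]
    exact (MulAction.stabilizer Γ v).zpow_mem hst j

end Pool.Agent.R2.GL
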