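import Pool.Agent.R2.GL.Semi

set_option autoImplicit false

/-!
# Free actions of cyclic groups of large prime order

If a prime `p` divides the length of every orbit of a finite group acting faithfully on a set with
fewer than `p ^ 2` elements, the group contains an element of order `p` all whose nontrivial powers
have no fixed points.
-/

namespace Pool.Agent.R2.GL

open MulAction

/-- an element of order `p` acting freely, in a faithful action with all orbit lengths divisible by
the prime `p`, of degree less than `p ^ 2` -/
theorem exists_free {p : ℕ} (hp : p.Prime) {G Ω : Type*} [Group G] [Finite G]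
    [MulAction G Ω] [Finite Ω] [Nonempty Ω]
    (hfaith : ∀ g : G, (∀ ω : Ω, g • ω = ω) → g = 1)
    (h1 : ∀ ω : Ω, p ∣ Nat.card (orbit G ω)) (h2 : Nat.card Ω < p ^ 2) :
    ∃ c : G, orderOf c = p ∧ ∀ a ∈ Subgroup.zpowers c, ∀ ω : Ω, a • ω = ω → a = 1 := by
  obtain ⟨g, ⟨b, hb⟩, hg⟩ := exists_derangement hp (G := G) (Ω := Ω) h1 h2
  have hpow : ∀ v : Ω, g ^ p • v = v := by
    intro v
    have e1 : MulAction.period g v ∣ p ^ b := by
      rw [← hb]
      exact MulAction.period_dvd_orderOf g v
    obtain ⟨i, -, hi⟩ := (Nat.dvd_prime_pow hp).1 e1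
    have e2 : i ≠ 0 := by
      rintro rfl
      apply hg v
      rw [pow_zero] at hi
      have := MulAction.pow_period_smul g v
      rwa [hi, pow_one] at this
    have e3 : MulAction.period g v ≤ Nat.card Ω := by
      have : MulAction.period g v = Nat.card (MulAction.orbit (Subgroup.zpowers g) v) := by
        let _ : Fintype (MulAction.orbit (Subgroup.zpowers g) v) := Fintype.ofFinite _
        rw [MulAction.period_eq_minimalPeriod, MulAction.minimalPeriod_eq_card,
          Nat.card_eq_fintype_card]
      rw [this]
      exact Nat.card_le_card_of_injective _ Subtype.val_injective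
    have e4 : i < 2 := by
      have : p ^ i < p ^ 2 := by rw [← hi]; omega
      exact (Nat.pow_lt_pow_iff_right hp.one_lt).1 this
    have e5 : i = 1 := by omega
    rw [e5, pow_one] at hi
    rw [← hi]
    exact MulAction.pow_period_smul g v
  have hgp : g ^ p = 1 := hfaith _ hpow
  have hg1 : g ≠ 1 := by
    rintro rfl
    obtain ⟨v⟩ := ‹Nonempty Ω›
    exact hg v (one_smul _ v)
  have hF : Fact p.Prime := ⟨hp⟩
  have hord : orderOf g = p := orderOf_eq_prime hgp hg1
  refine ⟨g, hord, fun a ha v hav => ?_⟩
  by_contra ha1
  have hgen : g ∈ Subgroup.zpowers a := by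
    have h3 : orderOf a = p := by
      have h4 : orderOf a ∣ p := by
        rw [← hord, ← Nat.card_zpowers g]
        exact Subgroup.orderOf_dvd_natCard _ ha
      rcases (Nat.dvd_prime hp).1 h4 with h5 | h5
      · exact absurd (orderOf_eq_one_iff.1 h5) ha1
      · exact h5
    have h6 : Subgroup.zpowers a ≤ Subgroup.zpowers g := by
      rw [Subgroup.zpowers_le]; exact ha
    have h7 : Subgroup.zpowers a = Subgroup.zpowers g := by
      apply Subgroup.eq_of_le_of_card_ge h6
      rw [Nat.card_zpowers, Nat.card_zpowers, h3, hord]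
    rw [h7]
    exact Subgroup.mem_zpowers g
  obtain ⟨j, hj⟩ := Subgroup.mem_zpowers_iff.1 hgen
  apply hg v
  rw [← hj]
  have hst : a ∈ MulAction.stabilizer G v := hav
  exact (MulAction.stabilizer G v).zpow_mem hst j

/-- a free action of a group `A` on a finite set has `|Ω| / |A|` orbits, and representatives -/
theorem exists_reps {A Ω : Type*} [Group A] [Finite A] [MulAction A Ω] [Fintype Ω]
    [DecidableEq Ω] (hfree : ∀ a : A, ∀ ω : Ω, a • ω = ω → a = 1) {k : ℕ}
    (hk : Fintype.card Ω = k * Nat.card A) :
    ∃ S : Finset Ω, S.card = k ∧ ∀ x : Ω, ∃ s ∈ S, ∃ a : A, a • s = x := by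
  classical
  let Q := MulAction.orbitRel.Quotient A Ω
  let S : Finset Ω := Finset.univ.image (fun x : Ω => (Quotient.mk (orbitRel A Ω) x).out)
  refine ⟨S, ?_, ?_⟩
  · have hcard : Nat.card Ω = Nat.card Q * Nat.card A := by
      have e := MulAction.selfEquivSigmaOrbitsQuotientStabilizer A Ω
      rw [Nat.card_congr e]
      have : Finite Q := Quotient.finite _
      have hst : ∀ ω : Q, Nat.card (A ⧸ stabilizer A ω.out) = Nat.card A := by
        intro ω
        have hbot : stabilizer A ω.out = ⊥ := by
          rw [eq_bot_iff]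
          intro a ha
          rw [Subgroup.mem_bot]
          exact hfree a _ ha
        rw [hbot]
        exact Nat.card_congr (QuotientGroup.quotientBot (G := A)).toEquiv
      have : Fintype Q := Fintype.ofFinite Q
      rw [Nat.card_sigma]
      rw [Finset.sum_congr rfl (fun ω _ => hst ω)]
      simp [Nat.card_eq_fintype_card]
    have hQ : Nat.card Q = k := by
      have hA : 0 < Nat.card A := Nat.card_pos
      rw [Nat.card_eq_fintype_card, hk] at hcard
      exact (Nat.eq_of_mul_eq_mul_right hA hcard).symm
    rw [← hQ]
    have hfin : Fintype Q := Fintype.ofFinite Q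
    have : S = (Finset.univ : Finset Q).image (fun q => q.out) := by
      ext x
      simp only [S, Finset.mem_image, Finset.mem_univ, true_and]
      constructor
      · rintro ⟨y, hy⟩
        exact ⟨Quotient.mk (orbitRel A Ω) y, hy⟩
      · rintro ⟨q, hq⟩
        refine ⟨q.out, ?_⟩
        rw [Quotient.out_eq]
        exact hq
    rw [this, Finset.card_image_of_injective, Finset.card_univ, Nat.card_eq_fintype_card]
    intro q q' h
    have : Quotient.mk (orbitRel A Ω) q.out = Quotient.mk (orbitRel A Ω) q'.out := by
      show Quotient.mk (orbitRel A Ω) (Quotient.out q) = Quotient.mk (orbitRel A Ω) (Quotient.out q')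
      exact congrArg _ h
    rwa [Quotient.out_eq, Quotient.out_eq] at this
  · intro x
    refine ⟨(Quotient.mk (orbitRel A Ω) x).out, ?_, ?_⟩
    · exact Finset.mem_image_of_mem _ (Finset.mem_univ x)
    · have h1 : Quotient.mk (orbitRel A Ω) ((Quotient.mk (orbitRel A Ω) x).out) =
          Quotient.mk (orbitRel A Ω) x := Quotient.out_eq _
      have h2 := Quotient.exact h1
      have h3 : (Quotient.mk (orbitRel A Ω) x).out ∈ orbit A x := h2
      obtain ⟨a, ha⟩ := h3
      refine ⟨a⁻¹, ?_⟩
      have ha' : a • x = (Quotient.mk (orbitRel A Ω) x).out := ha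
      rw [← ha', inv_smul_smul]

end Pool.Agent.R2.GL
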