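import Mathlib

set_option autoImplicit false

/-!
# The vertices moved by an automorphism of prime order

Let `x` be a permutation of order `p ^ (a + 1)`. The group generated by `x` acts freely on the points
moved by `x ^ (p ^ a)`. In a graph without cycles of length `3` or `4` a moved vertex has at most one fixed
neighbour.
-/

namespace Pool.Agent.R2.GL

/-- a nontrivial power of an element `x` of order `p ^ (a + 1)` moves what `x ^ (p ^ a)` moves -/
theorem free_of_moved {G Ω : Type*} [Group G] [MulAction G Ω] {p a : ℕ} (hp : p.Prime) {x : G}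
    (hx : orderOf x = p ^ (a + 1)) {b : G} (hb : b ∈ Subgroup.zpowers x) {v : Ω}
    (hv : x ^ (p ^ a) • v ≠ v) (hbv : b • v = v) : b = 1 := by
  by_contra hb1
  have hfin : IsOfFinOrder x := by
    rw [← orderOf_pos_iff, hx]
    exact Nat.pow_pos hp.pos
  have hb' : b ∈ Submonoid.powers x := by
    rw [hfin.mem_powers_iff_mem_zpowers]
    exact hb
  obtain ⟨j, rfl⟩ := hb'
  simp only at hb1 hbv hb
  have hj : ¬ p ^ (a + 1) ∣ j := by
    intro h
    apply hb1
    rw [← hx] at h
    exact orderOf_dvd_iff_pow_eq_one.1 h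
  have hj0 : j ≠ 0 := by
    rintro rfl
    exact hj (dvd_zero _)
  obtain ⟨i, j', hj', rfl⟩ := Nat.exists_eq_pow_mul_and_not_dvd hj0 p hp.ne_one
  have hi : i < a + 1 := by
    by_contra h
    push Not at h
    exact hj ((pow_dvd_pow p h).mul_right j')
  have hord : orderOf (x ^ (p ^ a)) = p := by
    rw [orderOf_pow' x (pow_ne_zero _ hp.ne_zero), hx, pow_succ,
      Nat.gcd_eq_right (Dvd.intro _ rfl), Nat.mul_div_cancel_left _ (Nat.pow_pos hp.pos)]
  have hcop : j'.Coprime (orderOf (x ^ (p ^ a))) := by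
    rw [hord]
    exact ((Nat.Prime.coprime_iff_not_dvd hp).2 hj').symm
  obtain ⟨m, hm⟩ := exists_pow_eq_self_of_coprime hcop
  apply hv
  have h1 : ((x ^ (p ^ a)) ^ j') = (x ^ (p ^ i * j')) ^ (p ^ (a - i)) := by
    rw [← pow_mul, ← pow_mul]
    congr 1
    have : p ^ a = p ^ i * p ^ (a - i) := by
      rw [← pow_add]
      congr 1
      omega
    rw [this]
    ring
  have hst : x ^ (p ^ i * j') ∈ MulAction.stabilizer G v := hbv
  have h2 : (x ^ (p ^ a)) ^ j' ∈ MulAction.stabilizer G v := by
    rw [h1]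
    exact (MulAction.stabilizer G v).pow_mem hst _
  have h3 : x ^ (p ^ a) ∈ MulAction.stabilizer G v := by
    rw [← hm]
    exact (MulAction.stabilizer G v).pow_mem h2 _
  exact h3

/-- the other points are fixed by all powers -/
theorem fixed_of_fixed {G Ω : Type*} [Group G] [MulAction G Ω] {x : G}
    {a : G} (ha : a ∈ Subgroup.zpowers x) {v : Ω} (hv : x • v = v) : a • v = v := by
  obtain ⟨j, hj⟩ := Subgroup.mem_zpowers_iff.1 ha
  have hst : x ∈ MulAction.stabilizer G v := hv
  rw [← hj]
  exact (MulAction.stabilizer G v).zpow_mem hst j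

/-- elements commuting with `y` move points moved by `y` to points moved by `y` -/
theorem moved_smul {G Ω : Type*} [Group G] [MulAction G Ω] {y : G}
    {a : G} (ha : y * a = a * y) {v : Ω} (hv : y • v ≠ v) : y • a • v ≠ a • v := by
  intro h
  apply hv
  have h2 : a • y • v = a • v := by
    rw [← mul_smul, ← ha, mul_smul]
    exact h
  exact smul_left_cancel a h2

/-- powers commute -/
theorem pow_comm {G : Type*} [Group G] {x : G} {a : G} (ha : a ∈ Subgroup.zpowers x) (n : ℕ) :
    x ^ n * a = a * x ^ n := by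
  obtain ⟨j, rfl⟩ := Subgroup.mem_zpowers_iff.1 ha
  rw [← zpow_natCast, ← zpow_add, ← zpow_add, add_comm]

/-- a moved vertex has at most one fixed neighbour in a graph without cycles of length at most `4` -/
theorem fixed_neighbour_unique {V : Type*} (X : SimpleGraph V)
    (hgirth : ∀ (v : V) (w : X.Walk v v), w.IsCycle → 4 < w.length) (x : Equiv.Perm V)
    (hx : ∀ u v : V, X.Adj u v → X.Adj (x u) (x v)) {b f f' : V} (hb : x b ≠ b)
    (hf : x f = f) (hf' : x f' = f') (h1 : X.Adj b f) (h2 : X.Adj b f') : f = f' := by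
  by_contra hne
  have h3 : X.Adj (x b) f := by
    have := hx b f h1
    rwa [hf] at this
  have h4 : X.Adj (x b) f' := by
    have := hx b f' h2
    rwa [hf'] at this
  -- the cycle b f (x b) f' b
  let w : X.Walk b b :=
    SimpleGraph.Walk.cons h1 (SimpleGraph.Walk.cons h3.symm (SimpleGraph.Walk.cons h4
      (SimpleGraph.Walk.cons h2.symm SimpleGraph.Walk.nil)))
  have hw : w.IsCycle := by
    have hbf : b ≠ f := h1.ne
    have hbf' : b ≠ f' := h2.ne
    have hxf : x b ≠ f := h3.ne
    have hxf' : x b ≠ f' := h4.ne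
    rw [SimpleGraph.Walk.isCycle_def]
    refine ⟨?_, by simp [w], ?_⟩
    · rw [SimpleGraph.Walk.isTrail_def]
      simp only [w, SimpleGraph.Walk.edges_cons, SimpleGraph.Walk.edges_nil, List.nodup_cons,
        List.mem_cons, List.not_mem_nil, or_false, not_or, List.nodup_nil, and_true,
        not_false_eq_true]
      refine ⟨⟨fun h => ?_, fun h => ?_, fun h => ?_⟩, ⟨fun h => ?_, fun h => ?_⟩, fun h => ?_⟩
      · rcases Sym2.eq_iff.1 h with ⟨h, -⟩ | ⟨h, -⟩
        · exact hbf h
        · exact hb h.symm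
      · rcases Sym2.eq_iff.1 h with ⟨h, -⟩ | ⟨h, -⟩
        · exact hb h.symm
        · exact hbf' h
      · rcases Sym2.eq_iff.1 h with ⟨h, -⟩ | ⟨-, h⟩
        · exact hbf' h
        · exact hne h
      · rcases Sym2.eq_iff.1 h with ⟨h, -⟩ | ⟨h, -⟩
        · exact hxf h.symm
        · exact hne h
      · rcases Sym2.eq_iff.1 h with ⟨h, -⟩ | ⟨h, -⟩
        · exact hne h
        · exact hbf h.symm
      · rcases Sym2.eq_iff.1 h with ⟨h, -⟩ | ⟨h, -⟩
        · exact hxf' h
        · exact hb h
    · simp only [w, SimpleGraph.Walk.support_cons, SimpleGraph.Walk.support_nil, List.tail_cons,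
        List.nodup_cons, List.mem_cons, List.not_mem_nil, or_false, not_or, List.nodup_nil,
        and_true, not_false_eq_true]
      exact ⟨⟨hxf.symm, hne, hbf.symm⟩, ⟨hxf', hb⟩, hbf'.symm⟩
  have := hgirth b w hw
  simp [w] at this

end Pool.Agent.R2.GL
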