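import Pool.Agent.R2.GL.Moved
import Pool.Agent.H268R2.LB.Bounds
import Pool.Agent.H268R2.LB.Laws

set_option autoImplicit false

/-!
# Automorphisms of prime order of graphs of large girth

`x` is an automorphism of prime order `p` of the graph `G` of girth greater than `M ≥ 6 R` in which
all degrees are at least `δ`. Walks from a moved vertex `v` reach the fixed vertices only in one
direction, so at least `(δ - 1) ^ R` vertices are reached from `v` by nonbacktracking walks with `R`
steps among moved vertices, and the group generated by `x` acts freely on the moved vertices.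
-/

namespace Pool.Agent.R2.GL

open Finset Pool.Agent.H268R2.LB

variable {V : Type*} {G : SimpleGraph V}

theorem NW.induct_first {n : ℕ} {a b c d : V} (h : NW G n a b c d) : n = 1 ∧ c = a ∧ b = d ∨ 2 ≤ n := by
  cases h with
  | one h => exact Or.inl ⟨rfl, rfl, rfl⟩
  | step h h1 h2 => have := h.pos; right; omega

/-- from a moved vertex nonbacktracking walks reach the fixed vertices only in one direction -/
theorem bad_unique {M : ℕ} (hg : ∀ (v : V) (p : G.Walk v v), p.IsCycle → M < p.length)
    (x : Equiv.Perm V) (hx : ∀ u v : V, G.Adj u v → G.Adj (x u) (x v)) {R s s' : ℕ}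
    (hR : 4 * R ≤ M) (hs : s ≤ R) (hs' : s' ≤ R) {v u c f u' c' f' : V}
    (h : NW G s v u c f) (hf : x f = f) (hc : x c ≠ c)
    (h' : NW G s' v u' c' f') (hf' : x f' = f') (hc' : x c' ≠ c') : u = u' := by
  by_contra hne
  have hinj : Function.Injective x := x.injective
  -- the image of the first walk
  have m1 : NW G s (x v) (x u) (x c) f := by
    have := NW.map (f := x) hx hinj h
    rwa [hf] at this
  have m2 : NW G s' (x v) (x u') (x c') f' := by
    have := NW.map (f := x) hx hinj h'
    rwa [hf'] at this
  have w1 : NW G (s + s) v u (x u) (x v) := NW.append h m1.rev (Ne.symm hc)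
  have w2 : NW G (s' + s') (x v) (x u') u' v := NW.append m2 h'.rev hc'
  have w3 : NW G (s + s + (s' + s')) v u u' v :=
    NW.append w1 w2 (fun h => hne (hinj h))
  exact no_closed hg w3 (by omega)

/-- the graph induced on the moved vertices -/
def movedGraph (G : SimpleGraph V) (x : Equiv.Perm V) : SimpleGraph {v : V // x v ≠ v} :=
  G.comap Subtype.val

theorem NW.val {x : Equiv.Perm V} {n : ℕ} {a b c d : {v : V // x v ≠ v}}
    (h : NW (movedGraph G x) n a b c d) : NW G n a.1 b.1 c.1 d.1 := by
  induction h with
  | one h => exact NW.one h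
  | step h h1 h2 ih => exact NW.step ih h1 (fun h => h2 (Subtype.ext h))

open Classical in
theorem growth_moved [Fintype V] {M : ℕ}
    (hg : ∀ (v : V) (p : G.Walk v v), p.IsCycle → M < p.length)
    (x : Equiv.Perm V) (hx : ∀ u v : V, G.Adj u v → G.Adj (x u) (x v)) (δ : ℕ)
    (hδ : ∀ v : V, δ ≤ #{y | G.Adj v y}) (v : {v : V // x v ≠ v}) (R : ℕ) (hR : 4 * R ≤ M) :
    ∀ n, n ≤ R → ∃ E : Finset {v : V // x v ≠ v}, (δ - 1) ^ n ≤ E.card ∧
      ∀ y ∈ E, (n = 0 ∧ v = y) ∨ ∃ b c, NW (movedGraph G x) n v b c y ∧
        ∀ s c' f, s ≤ R → x f = f → x c' ≠ c' → ¬ NW G s v.1 b.1 c' f := by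
  intro n
  induction n with
  | zero =>
    intro _
    exact ⟨{v}, by simp, by simp⟩
  | succ n ih =>
    intro hn
    obtain ⟨E, hE, hE'⟩ := ih (by omega)
    rcases Nat.eq_zero_or_pos n with h0 | hpos
    · subst h0
      -- the good directions
      let good : V → Prop := fun b => ∀ s c' f, s ≤ R → x f = f → x c' ≠ c' → ¬ NW G s v.1 b c' f
      refine ⟨univ.filter (fun y : {v : V // x v ≠ v} => G.Adj v.1 y.1 ∧ good y.1), ?_, ?_⟩
      · simp only [zero_add, pow_one]
        -- at most one neighbour is excluded
        have h1 : ∃ u₀ : V, ∀ y : V, G.Adj v.1 y → y ≠ u₀ → x y ≠ y ∧ good y := by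
          by_cases hb : ∃ u₀ : V, ∃ s c' f, s ≤ R ∧ x f = f ∧ x c' ≠ c' ∧ NW G s v.1 u₀ c' f
          · obtain ⟨u₀, s, c', f, hs, hf, hc', hw⟩ := hb
            refine ⟨u₀, fun y hy hne => ⟨fun hfix => ?_, ?_⟩⟩
            · exact hne (bad_unique hg x hx hR (by omega : 1 ≤ R) hs (NW.one hy) hfix v.2 hw hf hc')
            · intro s₁ c₁ f₁ hs₁ hf₁ hc₁ hw₁
              exact hne (bad_unique hg x hx hR hs₁ hs hw₁ hf₁ hc₁ hw hf hc')
          · push Not at hb
            refine ⟨v.1, fun y hy _ => ⟨fun hfix => ?_, fun s₁ c₁ f₁ hs₁ hf₁ hc₁ hw₁ =>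
              hb y s₁ c₁ f₁ hs₁ hf₁ hc₁ hw₁⟩⟩
            exact hb y 1 v.1 y (by omega) hfix v.2 (NW.one hy)
        obtain ⟨u₀, hu₀⟩ := h1
        have h2 : ({y | G.Adj v.1 y} : Finset V) ⊆ insert u₀
            ((univ.filter (fun y : {v : V // x v ≠ v} => G.Adj v.1 y.1 ∧ good y.1)).map
              (Function.Embedding.subtype _)) := by
          intro y hy
          rw [mem_filter] at hy
          rw [mem_insert]
          by_cases hyu : y = u₀
          · exact Or.inl hyu
          · right
            obtain ⟨h3, h4⟩ := hu₀ y hy.2 hyu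
            rw [mem_map]
            exact ⟨⟨y, h3⟩, mem_filter.2 ⟨mem_univ _, hy.2, h4⟩, rfl⟩
        have h3 := card_le_card h2
        have h4 := card_insert_le u₀
            ((univ.filter (fun y : {v : V // x v ≠ v} => G.Adj v.1 y.1 ∧ good y.1)).map
              (Function.Embedding.subtype _))
        rw [card_map] at h4
        have h5 := hδ v.1
        omega
      · intro y hy
        rw [mem_filter] at hy
        exact Or.inr ⟨y, v, NW.one hy.2.1, hy.2.2⟩
    · have hch : ∀ y ∈ E, ∃ b c, NW (movedGraph G x) n v b c y ∧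
        ∀ s c' f, s ≤ R → x f = f → x c' ≠ c' → ¬ NW G s v.1 b.1 c' f := by
        intro y hy
        rcases hE' y hy with ⟨h, _⟩ | h
        · omega
        · exact h
      choose! b c hbc using hch
      refine ⟨E.biUnion (fun y => univ.filter (fun z => (movedGraph G x).Adj y z ∧ z ≠ c y)),
        ?_, ?_⟩
      · rw [card_biUnion]
        · calc (δ - 1) ^ (n + 1) ≤ E.card * (δ - 1) := by
                rw [pow_succ]; exact Nat.mul_le_mul_right _ hE
            _ = ∑ _y ∈ E, (δ - 1) := by simp
            _ ≤ _ := by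
                refine sum_le_sum fun y hy => ?_
                have h1 := hδ y.1
                have h2 : ({z | G.Adj y.1 z} : Finset V) ⊆ insert (c y).1
                    ((univ.filter (fun z : {v : V // x v ≠ v} =>
                      (movedGraph G x).Adj y z ∧ z ≠ c y)).map
                      (Function.Embedding.subtype _)) := by
                  intro z hz
                  rw [mem_filter] at hz
                  rw [mem_insert]
                  by_cases hzc : z = (c y).1
                  · exact Or.inl hzc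
                  · right
                    have hw := NW.val (hbc y hy).1
                    have hw' := NW.step hw hz.2 (fun h => hzc h.symm)
                    have hz' : x z ≠ z := by
                      intro hfix
                      exact (hbc y hy).2 (n + 1) y.1 z (by omega) hfix y.2 hw'
                    rw [mem_map]
                    exact ⟨⟨z, hz'⟩, mem_filter.2 ⟨mem_univ _, hz.2,
                      fun h => hzc (congrArg Subtype.val h)⟩, rfl⟩
                have h3 := card_le_card h2
                have h4 := card_insert_le (c y).1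
                    ((univ.filter (fun z : {v : V // x v ≠ v} =>
                      (movedGraph G x).Adj y z ∧ z ≠ c y)).map
                      (Function.Embedding.subtype _))
                rw [card_map] at h4
                omega
        · intro y hy y' hy' hne
          rw [Function.onFun, Finset.disjoint_left]
          intro z hz hz'
          rw [mem_filter] at hz hz'
          have w1 := NW.step (NW.val (hbc y hy).1) hz.2.1 (fun h => hz.2.2 (Subtype.ext h).symm)
          have w2 := (NW.step (NW.val (hbc y' hy').1) hz'.2.1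
            (fun h => hz'.2.2 (Subtype.ext h).symm)).rev
          have w3 := NW.append w1 w2 (fun h => hne (Subtype.ext h))
          exact no_closed hg w3 (by omega)
      · intro z hz
        rw [mem_biUnion] at hz
        obtain ⟨y, hy, hz⟩ := hz
        rw [mem_filter] at hz
        exact Or.inr ⟨b y, y, NW.step (hbc y hy).1 hz.2.1 (Ne.symm hz.2.2), (hbc y hy).2⟩

/-- the group generated by `x` acts on the vertices moved by a power of `x` -/
@[reducible] def movedAction (x : Equiv.Perm V) (n : ℕ) :
    MulAction (Subgroup.zpowers x) {v : V // (x ^ n) v ≠ v} where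
  smul a v := ⟨a.1 v.1, moved_smul (y := x ^ n) (pow_comm a.2 n) v.2⟩
  one_smul _ := rfl
  mul_smul _ _ _ := rfl

/-- powers of an automorphism -/
theorem pow_adj (x : Equiv.Perm V) (hx : ∀ u v : V, G.Adj u v → G.Adj (x u) (x v)) (n : ℕ) :
    ∀ u w : V, G.Adj u w → G.Adj ((x ^ n) u) ((x ^ n) w) := by
  induction n with
  | zero => exact fun u w h => by simpa using h
  | succ n ih =>
    intro u w h
    rw [pow_succ']
    exact hx _ _ (ih u w h)

/-- cycles among moved vertices are cycles -/
theorem moved_girth {M : ℕ} (hg : ∀ (v : V) (p : G.Walk v v), p.IsCycle → M < p.length)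
    (x : Equiv.Perm V) (v : {v : V // x v ≠ v}) (p : (movedGraph G x).Walk v v)
    (hp : p.IsCycle) : M < p.length := by
  have hinj : Function.Injective
      (SimpleGraph.Embedding.comap (Function.Embedding.subtype (fun v : V => x v ≠ v)) G).toHom :=
    Subtype.val_injective
  have h1 := (SimpleGraph.Walk.map_isCycle_iff_of_injective hinj (p := p)).2 hp
  have h2 := hg _ _ h1
  rwa [SimpleGraph.Walk.length_map] at h2

open Classical in
/-- **Automorphisms of prime power order of graphs of large girth.** -/
theorem prime_aut_bound [Fintype V] {M : ℕ}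
    (hg : ∀ (v : V) (p : G.Walk v v), p.IsCycle → M < p.length)
    {p a : ℕ} (hp : p.Prime) (x : Equiv.Perm V) (hxp : orderOf x = p ^ (a + 1))
    (hx : ∀ u v : V, G.Adj u v → G.Adj (x u) (x v)) (δ : ℕ)
    (hδ : ∀ v : V, δ ≤ #{y | G.Adj v y}) (R : ℕ) (hR : 6 * R ≤ M) :
    p ^ (a + 1) * (δ - 1) ^ R ≤
      4 ^ (Nat.size R) * Fintype.card {v : V // (x ^ (p ^ a)) v ≠ v} := by
  have hx1 : x ^ (p ^ a) ≠ 1 := by
    intro h
    have h1 := orderOf_dvd_iff_pow_eq_one.2 h
    rw [hxp] at h1
    have h2 := Nat.le_of_dvd (Nat.pow_pos hp.pos) h1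
    have h3 : p ^ a < p ^ (a + 1) := Nat.pow_lt_pow_right hp.one_lt (by omega)
    omega
  obtain ⟨v, hv⟩ : ∃ v, (x ^ (p ^ a)) v ≠ v := by
    by_contra h
    push Not at h
    exact hx1 (Equiv.ext h)
  obtain ⟨E, hE, hE'⟩ := growth_moved hg (x ^ (p ^ a)) (pow_adj x hx _) δ hδ ⟨v, hv⟩ R
    (by omega) R le_rfl
  letI : MulAction (Subgroup.zpowers x) {v : V // (x ^ (p ^ a)) v ≠ v} := movedAction x _
  have hfin : Finite (Subgroup.zpowers x) := by
    apply Nat.finite_of_card_ne_zero
    rw [Nat.card_zpowers, hxp]
    exact pow_ne_zero _ hp.ne_zero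
  letI : Fintype (Subgroup.zpowers x) := Fintype.ofFinite _
  have hcard : Fintype.card (Subgroup.zpowers x) = p ^ (a + 1) := by
    rw [← Nat.card_eq_fintype_card, Nat.card_zpowers, hxp]
  have hpow : ∀ b ∈ Subgroup.zpowers x, ∀ u w : V, G.Adj u w → G.Adj (b u) (b w) := by
    intro b hb
    have hb' : b ∈ Submonoid.powers x := by
      rw [mem_powers_iff_mem_zpowers]
      exact hb
    obtain ⟨n, rfl⟩ := hb'
    exact pow_adj x hx n
  have hlaw : AltLaw (Subgroup.zpowers x) 3 3 :=
    altLaw_comm (fun a b => by
      obtain ⟨i, hi⟩ := Subgroup.mem_zpowers_iff.1 a.2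
      obtain ⟨j, hj⟩ := Subgroup.mem_zpowers_iff.1 b.2
      apply Subtype.ext
      rw [Subgroup.coe_mul, Subgroup.coe_mul, ← hi, ← hj, ← zpow_add, ← zpow_add, add_comm])
  have h1 := card_mul_le (A := Subgroup.zpowers x) (G := movedGraph G (x ^ (p ^ a))) (M := M)
    (fun v p hp => moved_girth hg _ v p hp)
    (fun a u w h => hpow a.1 a.2 u.1 w.1 h)
    (fun b u h => Subtype.ext (free_of_moved hp hxp b.2 u.2 (congrArg Subtype.val h)))
    hlaw (R := R) (by omega) (v := ⟨v, hv⟩) (E := E) (by
      intro y hy
      rcases hE' y hy with h | ⟨b, c, h, -⟩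
      · exact Or.inl h
      · exact Or.inr ⟨b, c, h⟩)
  rw [hcard] at h1
  have h2 : (2 * (3 - 1)) ^ (Nat.size R) = 4 ^ (Nat.size R) := by norm_num
  rw [h2] at h1
  exact (Nat.mul_le_mul_left _ hE).trans h1

end Pool.Agent.R2.GL
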