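import Pool.Agent.TH669.AD.VT

set_option autoImplicit false

/-!
# Semiregular automorphisms of large prime order

If a prime `p` divides the length of every orbit of a finite group of permutations of a set with
fewer than `p ^ 2` elements, the group contains an element of order `p` all whose nontrivial powers
have no fixed points.
-/

namespace Pool.Agent.R2.GL

open MulAction

/-- a group with all orbit lengths divisible by `p`, of degree less than `p ^ 2`, contains an element of
`p`-power order without fixed points -/
theorem exists_derangement {p : ℕ} (hprime : p.Prime) {G Ω : Type*} [Group G] [Finite G]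
    [MulAction G Ω] [Finite Ω] (h1 : ∀ ω : Ω, p ∣ Nat.card (orbit G ω))
    (h2 : Nat.card Ω < p ^ 2) :
    ∃ g : G, (∃ b, orderOf g = p ^ b) ∧ ∀ ω : Ω, g • ω ≠ ω := by
  have hF : Fact p.Prime := ⟨hprime⟩
  obtain ⟨P⟩ : Nonempty (Sylow p G) := inferInstance
  have hP : IsPGroup p P := P.isPGroup'
  have hcardP : Nat.card P = p ^ (Nat.card G).factorization p := P.card_eq_multiplicity
  have horb : ∀ ω : Ω, p ≤ Nat.card (orbit P ω) := by
    intro ω
    have e1 : Nat.card (orbit P ω) * Nat.card (stabilizer P ω) = Nat.card P := by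
      rw [← Nat.card_prod]
      exact Nat.card_congr (orbitProdStabilizerEquivGroup P ω)
    have e2 : Nat.card (orbit G ω) * Nat.card (stabilizer G ω) = Nat.card G := by
      rw [← Nat.card_prod]
      exact Nat.card_congr (orbitProdStabilizerEquivGroup G ω)
    have e3 : Nat.card (stabilizer P ω) ∣ Nat.card (stabilizer G ω) := by
      refine Subgroup.card_dvd_of_injective
        (MonoidHom.mk' (fun x : stabilizer P ω =>
          (⟨(x : P), x.2⟩ : stabilizer G ω)) ?_) ?_
      · intro x y
        rfl
      · intro x y hxy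
        have := congrArg (fun z : stabilizer G ω => (z : G)) hxy
        exact Subtype.ext (Subtype.ext this)
    obtain ⟨c, hc⟩ := hP.to_subgroup (stabilizer P ω) |> IsPGroup.iff_card.1
    have hne : Nonempty (orbit G ω) := ⟨⟨ω, mem_orbit_self ω⟩⟩
    have hG0 : Nat.card G ≠ 0 := Nat.card_pos.ne'
    have hO0 : Nat.card (orbit G ω) ≠ 0 := Nat.card_pos.ne'
    have hS0 : Nat.card (stabilizer G ω) ≠ 0 := Nat.card_pos.ne'
    have f1 : (Nat.card G).factorization p =
        (Nat.card (orbit G ω)).factorization p + (Nat.card (stabilizer G ω)).factorization p := by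
      rw [← e2, Nat.factorization_mul hO0 hS0]
      rfl
    have f2 : 1 ≤ (Nat.card (orbit G ω)).factorization p :=
      (hprime.pow_dvd_iff_le_factorization hO0).1 (by rw [pow_one]; exact h1 ω)
    have f3 : c ≤ (Nat.card (stabilizer G ω)).factorization p := by
      rw [← hprime.pow_dvd_iff_le_factorization hS0, ← hc]
      exact e3
    rw [hc, hcardP] at e1
    have f4 : p ^ (1 + c) ≤ Nat.card (orbit P ω) * p ^ c := by
      rw [e1]
      exact Nat.pow_le_pow_right hprime.pos (by omega)
    rw [pow_add, pow_one] at f4
    exact Nat.le_of_mul_le_mul_right f4 (Nat.pow_pos hprime.pos)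
  obtain ⟨g, hg⟩ := Pool.Agent.TH669.PT.exists_of_pgroup (p := p) hP hprime.two_le horb
    (by rwa [pow_two] at h2)
  refine ⟨(g : G), ?_, fun ω => hg ω⟩
  obtain ⟨b, hb⟩ := IsPGroup.iff_orderOf.1 hP g
  exact ⟨b, by rw [Subgroup.orderOf_coe]; exact hb⟩

/-- such an element can be taken of order `p`, with all nontrivial powers without fixed points -/
theorem exists_semiregular {p : ℕ} (hp : p.Prime) {V : Type} [Fintype V] [Nonempty V]
    (X : SimpleGraph V)
    (h1 : ∀ v : V, p ∣ Nat.card (orbit (Pool.Agent.TH669.AD.autGroup X) v))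
    (h2 : Fintype.card V < p ^ 2) :
    ∃ c : Pool.Agent.TH669.AD.autGroup X,
      (∀ a ∈ Subgroup.zpowers c, ∀ v : V, a • v = v → a = 1) ∧
      Nat.card (Subgroup.zpowers c) = p := by
  obtain ⟨g, ⟨b, hb⟩, hg⟩ := exists_derangement hp (G := Pool.Agent.TH669.AD.autGroup X)
    (Ω := V) h1 (by rw [Nat.card_eq_fintype_card]; exact h2)
  have hpow : ∀ v : V, g ^ p • v = v := by
    intro v
    have e1 : MulAction.period g v ∣ p ^ b := by
      rw [← hb]
      exact MulAction.period_dvd_orderOf g v
    obtain ⟨i, -, hi⟩ := (Nat.dvd_prime_pow hp).1 e1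
    have e2 : i ≠ 0 := by
      rintro rfl
      apply hg v
      rw [pow_zero] at hi
      have := MulAction.pow_period_smul g v
      rwa [hi, pow_one] at this
    have e3 : MulAction.period g v ≤ Fintype.card V := by
      have : MulAction.period g v = Nat.card (MulAction.orbit (Subgroup.zpowers g) v) := by
        let _ : Fintype (MulAction.orbit (Subgroup.zpowers g) v) := Fintype.ofFinite _
        rw [MulAction.period_eq_minimalPeriod, MulAction.minimalPeriod_eq_card,
          Nat.card_eq_fintype_card]
      rw [this, ← Nat.card_eq_fintype_card]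
      exact Nat.card_le_card_of_injective _ Subtype.val_injective
    have e4 : i < 2 := by
      have : p ^ i < p ^ 2 := by rw [← hi]; omega
      exact (Nat.pow_lt_pow_iff_right hp.one_lt).1 this
    have e5 : i = 1 := by omega
    rw [e5, pow_one] at hi
    rw [← hi]
    exact MulAction.pow_period_smul g v
  have hgp : g ^ p = 1 := by
    apply Subtype.ext
    ext v
    exact hpow v
  have hg1 : g ≠ 1 := by
    rintro rfl
    obtain ⟨v⟩ := ‹Nonempty V›
    exact hg v (one_smul _ v)
  have hF : Fact p.Prime := ⟨hp⟩
  have hord : orderOf g = p := orderOf_eq_prime hgp hg1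
  refine ⟨g, fun a ha v hav => ?_, by rw [Nat.card_zpowers, hord]⟩
  by_contra ha1
  have hgen : g ∈ Subgroup.zpowers a := by
    have h3 : orderOf a = p := by
      have h4 : orderOf a ∣ p := by
        rw [← hord, ← Nat.card_zpowers g]
        exact Subgroup.orderOf_dvd_natCard _ ha
      rcases (Nat.dvd_prime hp).1 h4 with h5 | h5
      · exact absurd (orderOf_eq_one_iff.1 h5) ha1
      · exact h5
    have h6 : Subgroup.zpowers a ≤ Subgroup.zpowers g := by
      rw [Subgroup.zpowers_le]; exact ha
    have h7 : Subgroup.zpowers a = Subgroup.zpowers g := by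
      apply Subgroup.eq_of_le_of_card_ge h6
      rw [Nat.card_zpowers, Nat.card_zpowers, h3, hord]
    rw [h7]
    exact Subgroup.mem_zpowers g
  obtain ⟨j, hj⟩ := Subgroup.mem_zpowers_iff.1 hgen
  apply hg v
  rw [← hj]
  have hst : a ∈ MulAction.stabilizer (Pool.Agent.TH669.AD.autGroup X) v := hav
  exact (MulAction.stabilizer (Pool.Agent.TH669.AD.autGroup X) v).zpow_mem hst j

end Pool.Agent.R2.GL
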