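import Pool.Agent.R2.GL.Partial
import Pool.Agent.TH468.BA.Triple

set_option autoImplicit false

/-!
# Sparse configurations in uniform hypergraphs with long orbits divisible by a large prime
-/

namespace Pool.Agent.R2.GL

open Finset Pool.Agent.TH468.BE

/-- the long orbits are divisible by `p`, the others are shorter than `p` -/
theorem sparse_partial (r : ℕ) (hr : 3 ≤ r) (δ : ℝ) (hδ : 0 < δ) :
    ∃ K : ℕ, 1 ≤ K ∧ ∀ k : ℕ, K ≤ k → ∃ C : ℕ, ∀ p : ℕ, p.Prime → C ≤ p →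
      ∀ (V : Type) [Fintype V] [DecidableEq V] (H : Finset (Finset V))
        (Γ : Subgroup (Equiv.Perm V)), (∀ e ∈ H, e.card = r) →
        (∀ a ∈ Γ, ∀ e ∈ H, e.image a ∈ H) →
        (∀ v : V, p ∣ Nat.card {u : V // ∃ a ∈ Γ, a v = u} ∨
          Nat.card {u : V // ∃ a ∈ Γ, a v = u} < p) →
        {v : V | p ∣ Nat.card {u : V // ∃ a ∈ Γ, a v = u}}.ncard < p ^ 2 →
        ∀ b : V, p ∣ Nat.card {u : V // ∃ a ∈ Γ, a b = u} →
        (C : ℝ) * ({v : V | p ∣ Nat.card {u : V // ∃ a ∈ Γ, a v = u}}.ncard / p : ℝ) ^ (1 + δ) <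
          (#{e ∈ H | b ∈ e} : ℕ) →
        ∃ E ⊆ H, E.card = k ∧ K * (E.biUnion id).card + k ≤ K * ((r - 2) * k) := by
  obtain ⟨K, hK1, hK⟩ := main_local r hr (fun _ _ => 0) 0 1 δ hδ
  refine ⟨K, hK1, fun k hk => ?_⟩
  obtain ⟨C, hC⟩ := hK k hk
  refine ⟨C, ?_⟩
  intro p hp hCp V _ _ H Γ hunif hinv h1 h2 b hb hdeg
  classical
  have horb : ∀ v : V, Nat.card {u : V // ∃ a ∈ Γ, a v = u} = Nat.card (MulAction.orbit Γ v) := by
    intro v
    refine Nat.card_congr (Equiv.subtypeEquivRight fun u => ?_)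
    constructor
    · rintro ⟨a, ha, h⟩
      exact ⟨⟨a, ha⟩, h⟩
    · rintro ⟨a, h⟩
      exact ⟨a.1, a.2, h⟩
  simp only [horb] at h1 h2 hb hdeg
  obtain ⟨c, hc, hfree, hfix⟩ := exists_free_on hp Γ h1 h2 ⟨b, hb⟩
  set W : Finset V := univ.filter (fun v => p ∣ Nat.card (MulAction.orbit Γ v)) with hW
  have hwW : {v : V | p ∣ Nat.card (MulAction.orbit Γ v)}.ncard = W.card := by
    rw [← Set.ncard_coe_finset]
    congr 1
    ext v
    simp [hW]
  have hmemW : ∀ v, v ∈ W ↔ p ∣ Nat.card (MulAction.orbit Γ v) := by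
    intro v
    simp [hW]
  have hfree' : ∀ (a : Subgroup.zpowers c), ∀ v ∈ W, a • v = v → a = 1 :=
    fun a v hv hav => Subtype.ext (hfree a.1 a.2 v ((hmemW v).1 hv) hav)
  have hfix' : ∀ (a : Subgroup.zpowers c), ∀ v ∉ W, a • v = v :=
    fun a v hv => hfix a.1 a.2 v (fun h => hv ((hmemW v).2 h))
  have hcomm : ∀ a b : Subgroup.zpowers c, a * b = b * a := fun a b => by
      obtain ⟨i, hi⟩ := Subgroup.mem_zpowers_iff.1 a.2
      obtain ⟨j, hj⟩ := Subgroup.mem_zpowers_iff.1 b.2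
      apply Subtype.ext
      rw [Subgroup.coe_mul, Subgroup.coe_mul, ← hi, ← hj, ← zpow_add, ← zpow_add, add_comm]
  have hcard : Nat.card (Subgroup.zpowers c) = p := by rw [Nat.card_zpowers, hc]
  have horbits := Pool.Agent.TH468.BA.orbits_one (V := V) (A := Subgroup.zpowers c) W hfree' hfix'
  refine hC V (Subgroup.zpowers c) H (Tower.comm 0 _ hcomm) (by rw [hcard]; omega) hunif
    (fun a e he => hinv a.1.1 a.1.2 e he) b (fun a ha => hfree' a b ((hmemW b).2 hb) ha) ?_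
  refine lt_of_le_of_lt ?_ hdeg
  have hp0 : (0 : ℝ) < p := by exact_mod_cast hp.pos
  have hq : (orbits (Subgroup.zpowers c) V 1 : ℝ) ≤
      ({v : V | p ∣ Nat.card (MulAction.orbit Γ v)}.ncard / p : ℝ) := by
    rw [le_div_iff₀ hp0, hwW]
    rw [hcard] at horbits
    exact_mod_cast horbits
  have h3 : (orbits (Subgroup.zpowers c) V 1 : ℝ) ^ (1 + δ) ≤
      ({v : V | p ∣ Nat.card (MulAction.orbit Γ v)}.ncard / p : ℝ) ^ (1 + δ) :=
    Real.rpow_le_rpow (Nat.cast_nonneg _) hq (by linarith)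
  exact mul_le_mul_of_nonneg_left h3 (Nat.cast_nonneg _)

/-- all orbits are divisible by `p` -/
theorem sparse_all (r : ℕ) (hr : 3 ≤ r) (δ : ℝ) (hδ : 0 < δ) :
    ∃ K : ℕ, 1 ≤ K ∧ ∀ k : ℕ, K ≤ k → ∃ C : ℕ, ∀ p : ℕ, p.Prime →
      ∀ (V : Type) [Fintype V] [DecidableEq V] (H : Finset (Finset V))
        (Γ : Subgroup (Equiv.Perm V)), (∀ e ∈ H, e.card = r) →
        (∀ a ∈ Γ, ∀ e ∈ H, e.image a ∈ H) →
        (∀ v : V, p ∣ Nat.card {u : V // ∃ a ∈ Γ, a v = u}) →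
        Fintype.card V < p ^ 2 →
        ((C : ℝ) * Fintype.card V * (Fintype.card V / p : ℝ) ^ (1 + δ) < H.card ∨
          ∃ b : V, (C : ℝ) * (Fintype.card V / p : ℝ) ^ (1 + δ) < (#{e ∈ H | b ∈ e} : ℕ)) →
        ∃ E ⊆ H, E.card = k ∧ K * (E.biUnion id).card + k ≤ K * ((r - 2) * k) := by
  obtain ⟨K, hK1, hK⟩ := main_local r hr (fun _ _ => 0) 0 0 δ hδ
  refine ⟨K, hK1, fun k hk => ?_⟩
  obtain ⟨C, hC⟩ := hK k hk
  refine ⟨C, ?_⟩
  intro p hp V _ _ H Γ hunif hinv h1 h2 hH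
  classical
  have horb : ∀ v : V, Nat.card {u : V // ∃ a ∈ Γ, a v = u} = Nat.card (MulAction.orbit Γ v) := by
    intro v
    refine Nat.card_congr (Equiv.subtypeEquivRight fun u => ?_)
    constructor
    · rintro ⟨a, ha, h⟩
      exact ⟨⟨a, ha⟩, h⟩
    · rintro ⟨a, h⟩
      exact ⟨a.1, a.2, h⟩
  simp only [horb] at h1
  -- a vertex of large degree
  obtain ⟨b, hb⟩ : ∃ b : V, (C : ℝ) * (Fintype.card V / p : ℝ) ^ (1 + δ) <
      (#{e ∈ H | b ∈ e} : ℕ) := by
    rcases hH with hH | hH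
    · by_contra hcon
      push Not at hcon
      have h1 := sum_card_bipartiteAbove_eq_sum_card_bipartiteBelow
        (s := (univ : Finset V)) (t := H) (fun b e => b ∈ e)
      simp only [bipartiteAbove, bipartiteBelow] at h1
      have h2 : ∀ e ∈ H, #{b ∈ (univ : Finset V) | b ∈ e} = r := by
        intro e he
        rw [← hunif e he]
        congr 1
        ext b
        simp
      rw [sum_congr rfl h2, sum_const, smul_eq_mul] at h1
      have h3 : ((∑ b : V, #{e ∈ H | b ∈ e} : ℕ) : ℝ) ≤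
          ∑ _b : V, (C : ℝ) * (Fintype.card V / p : ℝ) ^ (1 + δ) := by
        push_cast
        exact sum_le_sum fun b _ => hcon b
      rw [h1, sum_const, card_univ, nsmul_eq_mul] at h3
      push_cast at h3
      have h4 : (3 : ℝ) ≤ r := by exact_mod_cast hr
      have h5 : (0 : ℝ) ≤ (H.card : ℝ) := Nat.cast_nonneg _
      have h6 : (C : ℝ) * Fintype.card V * (Fintype.card V / p : ℝ) ^ (1 + δ) =
        (Fintype.card V : ℝ) * ((C : ℝ) * (Fintype.card V / p : ℝ) ^ (1 + δ)) := by ring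
      rw [h6] at hH
      nlinarith
    · exact hH
  have hne : Nonempty V := ⟨b⟩
  obtain ⟨c, hc, hfree⟩ := exists_free hp (G := Γ) (Ω := V)
    (fun g hg => Subtype.ext (Equiv.ext hg)) h1 (by rwa [Nat.card_eq_fintype_card])
  have hfree' : ∀ (a : Subgroup.zpowers c) (v : V), a • v = v → a = 1 :=
    fun a v hv => Subtype.ext (hfree a.1 a.2 v hv)
  have hcomm : ∀ a b : Subgroup.zpowers c, a * b = b * a := fun a b => by
      obtain ⟨i, hi⟩ := Subgroup.mem_zpowers_iff.1 a.2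
      obtain ⟨j, hj⟩ := Subgroup.mem_zpowers_iff.1 b.2
      apply Subtype.ext
      rw [Subgroup.coe_mul, Subgroup.coe_mul, ← hi, ← hj, ← zpow_add, ← zpow_add, add_comm]
  have hcard : Nat.card (Subgroup.zpowers c) = p := by rw [Nat.card_zpowers, hc]
  have horbits := Pool.Agent.TH468.BA.orbits_mul (V := V) (A := Subgroup.zpowers c) hfree'
  refine hC V (Subgroup.zpowers c) H (Tower.comm 0 _ hcomm) (by omega) hunif
    (fun a e he => hinv a.1.1 a.1.2 e he) b (fun a ha => hfree' a b ha) ?_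
  refine lt_of_le_of_lt ?_ hb
  have hp0 : (0 : ℝ) < p := by exact_mod_cast hp.pos
  have hq : (orbits (Subgroup.zpowers c) V 0 : ℝ) = (Fintype.card V / p : ℝ) := by
    rw [eq_div_iff hp0.ne', ← horbits, hcard]
    push_cast
    ring
  rw [hq]

end Pool.Agent.R2.GL
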